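import Mathlib

set_option autoImplicit false

namespace Pool.Agent.Results.MP_104382_al.NotFParadoxical

/-- The linear action of an integer matrix of determinant one on the real plane. -/
def act (g : Matrix.SpecialLinearGroup (Fin 2) ℤ) (v : Fin 2 → ℝ) : Fin 2 → ℝ :=
  Matrix.mulVec ((g : Matrix (Fin 2) (Fin 2) ℤ).map (Int.cast : ℤ → ℝ)) v

/-- `E` is `H`-paradoxical for a subgroup `H` of `SL₂(ℤ)` acting linearly on the plane. -/
def Paradoxical (H : Subgroup (Matrix.SpecialLinearGroup (Fin 2) ℤ)) (E : Set (Fin 2 → ℝ)) :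
    Prop :=
  ∃ (n m : ℕ) (A : Fin n → Set (Fin 2 → ℝ)) (B : Fin m → Set (Fin 2 → ℝ))
    (g : Fin n → Matrix.SpecialLinearGroup (Fin 2) ℤ)
    (h : Fin m → Matrix.SpecialLinearGroup (Fin 2) ℤ),
    0 < n ∧ 0 < m ∧ (∀ i, g i ∈ H) ∧ (∀ j, h j ∈ H) ∧
    (∀ i, A i ⊆ E) ∧ (∀ j, B j ⊆ E) ∧
    Pairwise (fun i i' => Disjoint (A i) (A i')) ∧
    Pairwise (fun j j' => Disjoint (B j) (B j')) ∧
    (∀ i j, Disjoint (A i) (B j)) ∧
    (⋃ i, act (g i) '' A i) = E ∧ (⋃ j, act (h j) '' B j) = E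

/-- The matrix `a` with rows `(1,2)`, `(0,1)`. -/
def a : Matrix.SpecialLinearGroup (Fin 2) ℤ := ⟨!![1, 2; 0, 1], by decide⟩

/-- The matrix `b`, the transpose of `a`. -/
def b : Matrix.SpecialLinearGroup (Fin 2) ℤ := ⟨!![1, 0; 2, 1], by decide⟩

/-- The group `F` generated by `a` and `b`. -/
def F : Subgroup (Matrix.SpecialLinearGroup (Fin 2) ℤ) := Subgroup.closure {a, b}

/-- The open unit square. -/
def Q : Set (Fin 2 → ℝ) := {v | ∀ k, 0 < v k ∧ v k < 1}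

theorem half (z : ℤ) (x : ℝ) (h0 : 0 < x) (h1 : x < 1) (hz : 2 * x = z) : x = 1 / 2 := by
  have h2 : (0 : ℝ) < z := by linarith
  have h3 : (z : ℝ) < 2 := by linarith
  have h4 : (0 : ℤ) < z := by exact_mod_cast h2
  have h5 : z < 2 := by exact_mod_cast h3
  have h6 : z = 1 := by omega
  subst h6
  push_cast at hz
  linarith

theorem center (g : Matrix.SpecialLinearGroup (Fin 2) ℤ) (v : Fin 2 → ℝ) (hv : v ∈ Q)
    (h : act g v = fun _ => 1 / 2) : v = fun _ => 1 / 2 := by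
  have hdet := g.det_coe
  rw [Matrix.det_fin_two] at hdet
  have hd : ((g.1 0 0 : ℤ) : ℝ) * (g.1 1 1 : ℤ) - ((g.1 0 1 : ℤ) : ℝ) * (g.1 1 0 : ℤ) = 1 := by
    exact_mod_cast hdet
  have h0 := congrFun h 0
  have h1 := congrFun h 1
  simp only [act, Matrix.mulVec, dotProduct, Fin.sum_univ_two, Matrix.map_apply] at h0 h1
  have e0 : v 0 = 1 / 2 := by
    apply half (g.1 1 1 - g.1 0 1) _ (hv 0).1 (hv 0).2
    push_cast
    linear_combination (-2 * v 0) * hd + 2 * ((g.1 1 1 : ℤ) : ℝ) * h0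
      - 2 * ((g.1 0 1 : ℤ) : ℝ) * h1
  have e1 : v 1 = 1 / 2 := by
    apply half (g.1 0 0 - g.1 1 0) _ (hv 1).1 (hv 1).2
    push_cast
    linear_combination (-2 * v 1) * hd + 2 * ((g.1 0 0 : ℤ) : ℝ) * h1
      - 2 * ((g.1 1 0 : ℤ) : ℝ) * h0
  funext k
  fin_cases k
  · exact e0
  · exact e1

theorem general (H : Subgroup (Matrix.SpecialLinearGroup (Fin 2) ℤ)) : ¬ Paradoxical H Q := by
  rintro ⟨n, m, A, B, g, h, -, -, -, -, hA, hB, -, -, hAB, hUA, hUB⟩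
  have hp : (fun _ => 1 / 2 : Fin 2 → ℝ) ∈ Q := by
    intro k; constructor <;> norm_num
  have h1 := hp
  have h2 := hp
  rw [← hUA] at h1
  rw [← hUB] at h2
  obtain ⟨i, v, hv, hve⟩ := Set.mem_iUnion.mp h1
  obtain ⟨j, w, hw, hwe⟩ := Set.mem_iUnion.mp h2
  have e1 := center _ v (hA i hv) hve
  have e2 := center _ w (hB j hw) hwe
  exact Set.disjoint_left.mp (hAB i j) hv (by rw [e1, ← e2]; exact hw)

/-- The open unit square is not `F`-paradoxical, nor paradoxical for any subgroup of `SL₂(ℤ)`. -/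
theorem result : ¬ Paradoxical F Q ∧
    ∀ H : Subgroup (Matrix.SpecialLinearGroup (Fin 2) ℤ), ¬ Paradoxical H Q :=
  ⟨general F, general⟩

end Pool.Agent.Results.MP_104382_al.NotFParadoxical
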